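import Pool.Agent.Lib.lead.CXNP

namespace Pool.Agent.Results.MP_4842e4_lc.Poly
open Pool.Agent.Lib.CX Finset

/-- frequency and duration of job `i` (jobs are `0, …, V.length - 1`) -/
def f (V : List (ℕ × ℕ)) (i : ℕ) : ℕ := (V.getD i 0).1
def p (V : List (ℕ × ℕ)) (i : ℕ) : ℕ := (V.getD i 0).2

/-- some schedule processes every job infinitely often with all gaps at most the frequency -/
def Feasible (V : List (ℕ × ℕ)) : Prop :=
  ∃ S : ℕ → ℕ, (∀ t, S t < V.length) ∧ ∀ i < V.length, (S ⁻¹' {i}).Infinite ∧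
    ∀ a b, a < b → S a = i → S b = i → (∀ t, a < t → t < b → S t ≠ i) → ∑ t ∈ Ioc a b, p V (S t) ≤ f V i

/-- an instance with frequency divisibility and density at most `α` -/
def Valid (α : ℚ) (V : List (ℕ × ℕ)) : Prop :=
  V ≠ [] ∧ (∀ i < V.length, 0 < f V i ∧ 0 < p V i) ∧ (∀ i, i + 1 < V.length → f V i ≤ f V (i + 1) ∧ f V i ∣ f V (i + 1)) ∧
    ∑ i ∈ range V.length, (p V i : ℚ) / f V i ≤ α

def lam (q p r : ℕ → ℕ) (i k : ℕ) : ℕ := ∑ j ∈ range i, if k % q j = r j then p j else 0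

theorem lam_per {q p r : ℕ → ℕ} {i Q k l : ℕ} (h : ∀ j < i, q j ∣ Q) (e : k % Q = l % Q) : lam q p r i k = lam q p r i l :=
  sum_congr rfl fun j hj => by
    rw [← Nat.mod_mod_of_dvd k (h j (mem_range.1 hj)), e, Nat.mod_mod_of_dvd _ (h j (mem_range.1 hj))]

theorem lam_sum (q p r : ℕ → ℕ) (i Q s : ℕ) (h : ∀ j < i, 0 < q j ∧ q j ∣ Q) :
    ∑ k ∈ range Q, lam q p r i (k + s) ≤ ∑ j ∈ range i, Q / q j * p j := by
  unfold lam
  rw [sum_comm]
  refine sum_le_sum fun j hj => ?_
  obtain ⟨h1, c, rfl⟩ := h j (mem_range.1 hj)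
  rw [← sum_filter, sum_const, smul_eq_mul, Nat.mul_div_cancel_left _ h1]
  refine Nat.mul_le_mul_right _ ((card_le_card_of_injOn (t := range c) (· / q j) (fun k hk => ?_)
    fun k hk l hl e => ?_).trans (by simp))
  · simp only [coe_filter, mem_range, Set.mem_ofPred_eq, coe_range, Set.mem_Iio] at hk ⊢
    exact Nat.div_lt_of_lt_mul hk.1
  · simp only [coe_filter, mem_range, Set.mem_ofPred_eq] at hk hl e
    have : k % q j = l % q j := Nat.ModEq.add_right_cancel' s (hk.2.trans hl.2.symm)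
    rw [← Nat.div_add_mod k (q j), e, this, Nat.div_add_mod]

theorem bins (n F P : ℕ) (q p : ℕ → ℕ) (hq : ∀ i < n, 0 < q i) (hd : ∀ j < n, ∀ i ≤ j, q i ∣ q j)
    (hs : ∀ i < n, 6 * ∑ j ∈ range i, q i / q j * p j ≤ q i * F) (hP : ∀ i < n, q i = 1 → ∑ j ∈ range (i + 1), p j ≤ P)
    (hF : P ≤ F) (h : ∀ j < n, q j ≠ 1 → P + p j ≤ F) :
    ∃ r : ℕ → ℕ, (∀ j < n, r j < q j) ∧ ∀ k, lam q p r n k ≤ F := by
  obtain ⟨q0, h0, h1⟩ : ∃ q0, 2 ≤ q0 ∧ ∀ j < n, q j ≠ 1 → q0 ∣ q j := by
    by_cases e : ∃ j, j < n ∧ q j ≠ 1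
    · have := Nat.find_spec e
      exact ⟨q (Nat.find e), by have := hq _ this.1; omega, fun j a b => hd j a _ (Nat.find_min' e ⟨a, b⟩)⟩
    · exact ⟨2, le_rfl, fun j a b => (e ⟨j, a, b⟩).elim⟩
  suffices ∀ i ≤ n, ∃ r : ℕ → ℕ, (∀ j < i, r j < q j) ∧ ∀ k, lam q p r i k ≤ F ∧
      (k % q0 % 2 = 0 → lam q p r i k ≤ P ∨ F < 2 * lam q p r i k) from
    (this n le_rfl).imp fun r h => ⟨h.1, fun k => (h.2 k).1⟩
  intro i hi
  induction i with
  | zero => exact ⟨id, by simp, by simp [lam]⟩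
  | succ i ih =>
    obtain ⟨r, r1, r2⟩ := ih (by omega)
    have hu : ∀ c k, lam q p (Function.update r i c) (i + 1) k = lam q p r i k + if k % q i = c then p i else 0 :=
      fun c k => by
        unfold lam
        rw [sum_range_succ, Function.update_self, sum_congr rfl fun j hj => by
          rw [Function.update_of_ne (mem_range.1 hj).ne]]
    have hr : ∀ c < q i, ∀ j < i + 1, Function.update r i c j < q j := fun c hc j hj => by
      rcases (Nat.le_of_lt_succ hj).lt_or_eq with a | rfl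
      · rw [Function.update_of_ne a.ne]; exact r1 j a
      · simpa
    by_cases e : q i = 1
    · have : ∀ k, lam q p (Function.update r i 0) (i + 1) k ≤ P := fun k =>
        (sum_le_sum fun j _ => by split_ifs <;> simp).trans (hP i hi e)
      exact ⟨_, hr 0 (hq i hi), fun k => ⟨(this k).trans hF, fun _ => .inl (this k)⟩⟩
    have hd' : ∀ j < i, q j ∣ q i := fun j hj => hd i hi j hj.le
    obtain ⟨c, c1, c2⟩ : ∃ c, c % q0 % 2 = (if F < 2 * p i then 0 else 1) ∧ 2 * lam q p r i c ≤ F := by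
      by_contra H
      push Not at H
      have a1 : ∀ k ∈ range (q i), F < 2 * (lam q p r i (k + 0) + lam q p r i (k + 1) + lam q p r i (k + 2)) := fun k _ => by
        have b0 := H (k + 0)
        have b1 := H (k + 1)
        have b2 := H (k + 2)
        have b3 : ∀ k, (k + 1) % q0 = if k % q0 + 1 = q0 then 0 else k % q0 + 1 := fun k => by
          have := Nat.mod_lt k (show 0 < q0 by omega)
          rw [← Nat.mod_add_mod]
          split_ifs with a
          · rw [a, Nat.mod_self]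
          · exact Nat.mod_eq_of_lt (by omega)
        have b4 := b3 k
        have b5 : (k + 2) % q0 = _ := b3 (k + 1)
        rw [add_zero] at b0 ⊢
        split_ifs at * <;> omega
      have a2 := sum_lt_sum_of_nonempty ⟨0, mem_range.2 (hq i hi)⟩ a1
      have a3 := fun s => lam_sum q p r i (q i) s fun j hj => ⟨hq j (by omega), hd' j hj⟩
      rw [← mul_sum, sum_add_distrib, sum_add_distrib, sum_const, card_range, smul_eq_mul] at a2
      have := hs i hi
      have := a3 0; have := a3 1; have := a3 2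
      omega
    refine ⟨_, hr _ (Nat.mod_lt c (hq i hi)), fun k => ?_⟩
    rw [hu]
    split_ifs with a
    · have a1 : k % q0 = c % q0 := Nat.ModEq.of_dvd (h1 i hi e) a
      have a2 := r2 c
      have a3 := h i hi e
      rw [lam_per hd' a, a1]
      split_ifs at c1 <;> omega
    · exact r2 k

theorem sched (n F : ℕ) (q p r : ℕ → ℕ) (hn : 0 < n) (hd : ∀ j < n, ∀ i ≤ j, q i ∣ q j) (r1 : ∀ j < n, r j < q j)
    (r2 : ∀ k, lam q p r n k ≤ F) : ∃ S : ℕ → ℕ, (∀ t, S t < n) ∧ ∀ i < n, (S ⁻¹' {i}).Infinite ∧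
    ∀ a b, a < b → S a = i → S b = i → (∀ t, a < t → t < b → S t ≠ i) → ∑ t ∈ Ioc a b, p (S t) ≤ q i * F := by
  let T : ℕ → Prop := fun x => x / n % q (x % n) = r (x % n)
  have t1 : ∀ i < n, ∀ N, ∃ y > N, T y ∧ y % n = i := fun i hi N => by
    have e1 : (i + n * (r i + q i * (N + 1))) % n = i := by rw [Nat.add_mul_mod_self_left, Nat.mod_eq_of_lt hi]
    have := r1 i hi
    refine ⟨_, ?_, ?_, e1⟩
    · nlinarith [Nat.mul_le_mul hn (Nat.mul_le_mul_right (N + 1) (show 1 ≤ q i by omega))]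
    · simp only [T, e1]
      rw [Nat.add_mul_div_left _ _ hn, Nat.div_eq_of_lt hi, zero_add, Nat.add_mul_mod_self_left, Nat.mod_eq_of_lt this]
  have t2 : {x | T x}.Infinite := Set.infinite_of_forall_exists_gt fun N => by
    obtain ⟨y, a, b, -⟩ := t1 0 hn N; exact ⟨y, b, a⟩
  have t3 : StrictMono (Nat.nth T) := Nat.nth_strictMono t2
  have t0 : ∀ a, T (Nat.nth T a) := Nat.nth_mem_of_infinite t2
  have t4 : ∀ a y, Nat.nth T a < y → T y → ∃ c > a, Nat.nth T c = y := fun a y h1 h2 => by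
    obtain ⟨c, rfl⟩ : y ∈ Set.range (Nat.nth T) := by rwa [Nat.range_nth_of_infinite t2]
    exact ⟨c, t3.lt_iff_lt.1 h1, rfl⟩
  let θ : ℕ → ℕ := fun x => x / n * F + lam q p r (x % n) (x / n)
  have t5 : ∀ x y, T x → x < y → θ x + p (x % n) ≤ θ y := fun x y hx h => by
    have a1 : lam q p r (x % n + 1) (x / n) = lam q p r (x % n) (x / n) + p (x % n) := by
      rw [lam, sum_range_succ, if_pos hx]; rfl
    have a2 : ∀ j, x % n < j → lam q p r (x % n + 1) (x / n) ≤ lam q p r j (x / n) := fun j hj =>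
      sum_le_sum_of_subset (range_mono hj)
    simp only [θ]
    rcases (Nat.div_le_div_right (c := n) h.le).lt_or_eq with a | a
    · have := a2 n (Nat.mod_lt _ hn)
      have := r2 (x / n)
      nlinarith [Nat.mul_le_mul_right F a]
    · have := a2 (y % n) (by have := Nat.div_add_mod x n; have := Nat.div_add_mod y n; rw [a] at *; omega)
      rw [← a]; omega
  have t6 : ∀ a b, a ≤ b → ∑ t ∈ Ioc a b, p (Nat.nth T t % n) + (θ (Nat.nth T a) + p (Nat.nth T a % n)) ≤
      θ (Nat.nth T b) + p (Nat.nth T b % n) := fun a b h => by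
    induction h with
    | refl => simp
    | step h ih =>
      have := t5 _ _ (t0 _) (t3 (Nat.lt_succ_self _ : _ < Nat.succ ‹ℕ›))
      rw [sum_Ioc_succ_top h]
      simp only [Nat.succ_eq_add_one] at *
      omega
  refine ⟨fun t => Nat.nth T t % n, fun t => Nat.mod_lt _ hn, fun i hi => ⟨Set.infinite_of_forall_exists_gt fun N => ?_,
    fun a b hab ha hb h => ?_⟩⟩
  · obtain ⟨y, a, b, c⟩ := t1 i hi (Nat.nth T N)
    obtain ⟨t, h1, rfl⟩ := t4 N y a b
    exact ⟨t, c, h1⟩
  · have a0 := t0 a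
    beta_reduce at ha hb h ⊢
    have a1 : (Nat.nth T a + n * q i) % n = i := by rw [Nat.add_mul_mod_self_left, ha]
    have a2 : (Nat.nth T a + n * q i) / n = Nat.nth T a / n + q i := Nat.add_mul_div_left _ _ hn
    obtain ⟨c, c1, c2⟩ := t4 a (Nat.nth T a + n * q i) (by have := r1 i hi; nlinarith)
      (by simp only [T, a1, a2, ha] at a0 ⊢; rwa [Nat.add_mod_right])
    have a3 : b ≤ c := by by_contra h'; exact h c c1 (by omega) (by rw [c2, a1])
    have a4 : θ (Nat.nth T c) = θ (Nat.nth T a) + q i * F := by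
      simp only [θ, c2, a1, a2, ha]
      rw [lam_per (fun j hj => hd i hi j hj.le) (Nat.add_mod_right _ _)]; ring
    have a5 := t6 a b hab.le
    rw [ha, hb] at a5
    rcases a3.lt_or_eq with a3 | rfl
    · have := t5 _ _ (t0 _) (t3 a3)
      omega
    · omega

theorem nec {V : List (ℕ × ℕ)} (h : Feasible V) {j : ℕ} (hj : j < V.length) (e : f V j ≠ f V 0) :
    ∑ i ∈ (range V.length).filter (f V · = f V 0), p V i + p V j ≤ f V 0 := by
  obtain ⟨S, -, h⟩ := h
  have h1 : ∀ N, ∀ i ∈ (range V.length).filter (f V · = f V 0), ∃ b, N < b ∧ S b = i := fun N i hi => by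
    obtain ⟨b, h1, h2⟩ := (h i (mem_range.1 (mem_filter.1 hi).1)).1.exists_gt N
    exact ⟨b, h2, h1⟩
  choose! w w1 w2 using h1 0
  obtain ⟨t, t1, t2⟩ := (h j hj).1.exists_gt (((range V.length).filter (f V · = f V 0)).sup w)
  let b : ℕ → ℕ := fun i => sInf {b | t < b ∧ S b = i}
  have b1 : ∀ i ∈ (range V.length).filter (f V · = f V 0), t < b i ∧ S (b i) = i := fun i hi => Nat.sInf_mem (h1 t i hi)
  obtain ⟨i, i1, i2⟩ := exists_max_image _ b ⟨0, show 0 ∈ (range V.length).filter (f V · = f V 0) by simp; omega⟩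
  have i3 := mem_filter.1 i1
  have t1 : S t = j := t1
  have a1 : S (Nat.findGreatest (S · = i) t) = i := Nat.findGreatest_spec (P := (S · = i)) ((le_sup i1).trans t2.le) (w2 i i1)
  have a2 : Nat.findGreatest (S · = i) t < t := (Nat.findGreatest_le t).lt_of_ne fun c => e (by rw [← t1, ← c, a1, i3.2])
  have := (h i (mem_range.1 i3.1)).2 _ _ (a2.trans (b1 i i1).1) a1 (b1 i i1).2 fun u u1 u2 u3 => by
    by_cases c : u ≤ t
    · exact Nat.findGreatest_is_greatest u1 c u3
    · exact Nat.notMem_of_lt_sInf u2 ⟨by omega, u3⟩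
  rw [i3.2] at this
  refine le_trans ?_ ((sum_le_sum_of_subset (s := insert t (image b ((range V.length).filter (f V · = f V 0))))
    fun u hu => ?_).trans this)
  · rw [sum_insert (by simp only [mem_image, not_exists, not_and]; exact fun x hx => (b1 x hx).1.ne'),
      sum_image fun x hx y hy c => by rw [← (b1 x hx).2, c, (b1 y hy).2], t1, add_comm]
    exact Nat.add_le_add_left (sum_le_sum fun x hx => by rw [(b1 x hx).2]) _
  · rcases mem_insert.1 hu with rfl | hu
    · exact mem_Ioc.2 ⟨a2, (b1 i i1).1.le⟩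
    · obtain ⟨x, hx, rfl⟩ := mem_image.1 hu
      exact mem_Ioc.2 ⟨a2.trans (b1 x hx).1, i2 x hx⟩

theorem suf {V : List (ℕ × ℕ)} (hV : Valid (1 / 6) V) (h : ∀ j < V.length, f V j ≠ f V 0 →
    ∑ i ∈ (range V.length).filter (f V · = f V 0), p V i + p V j ≤ f V 0) : Feasible V := by
  obtain ⟨h1, h2, h3, h4⟩ := hV
  have hn := List.length_pos_iff.2 h1
  have h0 := (h2 0 hn).1
  have d1 : ∀ j < V.length, ∀ i ≤ j, f V i ∣ f V j := fun j hj i hi => by
    induction hi with
    | refl => rfl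
    | step _ ih => exact (ih (by omega)).trans (h3 _ hj).2
  let q : ℕ → ℕ := fun i => f V i / f V 0
  have q1 : ∀ i < V.length, q i * f V 0 = f V i := fun i hi => Nat.div_mul_cancel (d1 i hi 0 (by omega))
  have q2 : ∀ i < V.length, 0 < q i := fun i hi => Nat.pos_of_mul_pos_right (by rw [q1 i hi]; exact (h2 i hi).1)
  have q3 : ∀ j < V.length, ∀ i ≤ j, q i ∣ q j := fun j hj i hi =>
    Nat.dvd_of_mul_dvd_mul_right h0 (by rw [q1 j hj, q1 i (by omega)]; exact d1 j hj i hi)
  have q4 : ∀ i < V.length, q i = 1 ↔ f V i = f V 0 := fun i hi => by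
    rw [← q1 i hi]; simp [h0.ne']
  have h0' : (0 : ℚ) < f V 0 := by exact_mod_cast h0
  have h5 : ∀ s ⊆ range V.length, ∑ i ∈ s, (p V i : ℚ) / f V i ≤ 1 / 6 := fun s hs =>
    (sum_le_sum_of_subset_of_nonneg hs fun _ _ _ => by positivity).trans h4
  obtain ⟨r, r1, r2⟩ := bins V.length (f V 0) (∑ i ∈ (range V.length).filter (f V · = f V 0), p V i) q (p V) q2 q3
    (fun i hi => by
      have a1 := mul_le_mul_of_nonneg_left (h5 _ (range_mono hi.le)) (show (0 : ℚ) ≤ f V i by positivity)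
      rw [mul_sum, sum_congr rfl (g := fun j => ((q i / q j * p V j : ℕ) : ℚ)) fun j hj => ?_, ← Nat.cast_sum] at a1
      · rw [q1 i hi, ← Nat.cast_le (α := ℚ)]; push_cast at a1 ⊢; linarith
      · have hj := mem_range.1 hj
        obtain ⟨c, hc⟩ := q3 i hi j hj.le
        have := q2 j (by omega)
        rw [← q1 i hi, ← q1 j (by omega), hc, Nat.mul_div_cancel_left _ this]
        push_cast; field_simp)
    (fun i hi e => sum_le_sum_of_subset fun j hj => by
      have hj := mem_range.1 hj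
      exact mem_filter.2 ⟨mem_range.2 (by omega), (q4 j (by omega)).1 (Nat.dvd_one.1 (e ▸ q3 i hi j (by omega)))⟩)
    (by
      have a1 := h5 _ (filter_subset (f V · = f V 0) _)
      rw [sum_congr rfl fun j hj => by rw [(mem_filter.1 hj).2], ← sum_div, div_le_iff₀ h0', ← Nat.cast_sum] at a1
      rw [← Nat.cast_le (α := ℚ)]; linarith)
    fun j hj e => h j hj (mt (q4 j hj).2 e)
  obtain ⟨S, s1, s2⟩ := sched _ _ q (p V) r hn q3 r1 r2
  exact ⟨S, s1, fun i hi => q1 i hi ▸ s2 i hi⟩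

theorem result : InP fun V : {V : List (ℕ × ℕ) // Valid (1 / 6) V} => Feasible V.1 := by
  refine InP.of_iff (B := fun V => ∀ j < V.1.length, f V.1 j ≠ f V.1 0 →
    ((List.range V.1.length).map fun i => if f V.1 i = f V.1 0 then p V.1 i else 0).sum + p V.1 j ≤ f V.1 0)
    (InP.of_decide (by unfold f p; fun_prop)) fun V => ?_
  simp only [← List.sum_toFinset _ List.nodup_range, List.toFinset_range, ← sum_filter]
  exact ⟨fun h j => nec h, suf V.2⟩

end Pool.Agent.Results.MP_4842e4_lc.Poly
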